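import Pool.Agent.H80.Pk.Mul

set_option autoImplicit false

/-! # Sizes of iterated logarithms (helper80) -/

namespace Pool.Agent.H80.Pk

open Finset Filter Pool.Agent.H318R2.Cr Pool.Agent.H361R2.PA

theorem ev_pow (K : ℝ) (k : ℕ) (a : ℝ) (ha : 0 < a) :
    ∀ᶠ s : ℝ in atTop, K * Real.log s ^ k ≤ s ^ a := by
  have a1 := isLittleO_log_rpow_rpow_atTop (k : ℝ) ha
  have a2 := a1.bound (show (0 : ℝ) < 1 / (|K| + 1) by positivity)
  filter_upwards [a2, eventually_ge_atTop (1 : ℝ)] with s hs hs1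
  have hs0 : 0 < s := by linarith
  have hl : 0 ≤ Real.log s := Real.log_nonneg hs1
  have e1 : Real.log s ^ (k : ℝ) = Real.log s ^ k := Real.rpow_natCast _ _
  rw [e1, Real.norm_of_nonneg (by positivity), Real.norm_of_nonneg (by positivity),
    one_div_mul_eq_div, le_div_iff₀ (by positivity)] at hs
  have h3 : K ≤ |K| + 1 := (le_abs_self K).trans (by linarith)
  calc K * Real.log s ^ k ≤ (|K| + 1) * Real.log s ^ k := by gcongr
    _ = Real.log s ^ k * (|K| + 1) := by ring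
    _ ≤ _ := hs

theorem evs (K : ℝ) (k : ℕ) : ∃ X₀ : ℝ, ∀ X : ℝ, X₀ ≤ X →
    0 < X ∧ K ≤ Real.log (Real.log (Real.log (Real.log X))) ∧
    K * Real.log (Real.log (Real.log (Real.log X))) ^ k ≤ Real.log (Real.log (Real.log X)) ∧
    K * Real.log (Real.log (Real.log X)) ^ k ≤ Real.log (Real.log X) ^ (1 / 12 : ℝ) ∧
    K * Real.log (Real.log X) ^ k ≤ Real.log X ∧
    1 ≤ Real.log (Real.log (Real.log (Real.log X))) ∧ 1 ≤ Real.log (Real.log (Real.log X)) ∧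
    1 ≤ Real.log (Real.log X) ∧ 1 ≤ Real.log X := by
  have t1 := Real.tendsto_log_atTop
  have t2 := t1.comp t1
  have t3 := t1.comp t2
  have t4 := t1.comp t3
  have h1 := t4.eventually_ge_atTop K
  have h1' := t4.eventually_ge_atTop 1
  have h2 := t3.eventually (ev_pow K k 1 one_pos)
  have h3 := t2.eventually (ev_pow K k (1 / 12) (by norm_num))
  have h4 := t1.eventually (ev_pow K k 1 one_pos)
  obtain ⟨X₀, h⟩ := eventually_atTop.1 ((((((((h1.and h2).and h3).and h4).and h1').and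
    (eventually_gt_atTop (0 : ℝ))).and (t3.eventually_ge_atTop 1)).and
    (t2.eventually_ge_atTop 1)).and (t1.eventually_ge_atTop 1))
  refine ⟨X₀, fun X hX => ?_⟩
  obtain ⟨⟨⟨⟨⟨⟨⟨⟨a1, a2⟩, a3⟩, a4⟩, a5⟩, a6⟩, a7⟩, a8⟩, a9⟩ := h X hX
  simp only [Function.comp, Real.rpow_one] at a1 a2 a3 a4 a5 a7 a8
  exact ⟨a6, a1, a2, a3, a4, a5, a7, a8, a9⟩

/-- everything that is needed on the sizes -/
structure Sz (K : ℝ) (k : ℕ) (d₁ d₂ : ℝ) (X : ℝ) (u₂ u₃ u₄ y w : ℝ) (v Y : ℕ) : Prop where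
  hX : 0 < X
  hK4 : K ≤ u₄
  h41 : 1 ≤ u₄
  h43 : u₄ ≤ u₃
  h32 : u₃ ≤ u₂
  h4k : ∀ j : ℕ, j ≤ k → K * u₄ ^ j ≤ u₃
  h3k : ∀ j : ℕ, j ≤ k → K * u₃ ^ j ≤ u₂ ^ (1 / 12 : ℝ)
  h2k : ∀ j : ℕ, j ≤ k → K * u₂ ^ j ≤ Real.log X
  hy : y = Real.log X / u₂
  hKy : K ≤ y
  hly1 : u₂ / 2 ≤ Real.log y
  hly2 : Real.log y ≤ u₂
  hlly : Real.log (Real.log y) ≤ u₃
  hlly0 : 0 < Real.log (Real.log y)
  hw : w = WW y
  hw10 : 10 ≤ w
  hwy : w ≤ Real.log y
  hw1 : u₂ * u₄ / (40 * u₃) ≤ w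
  hw2 : w ≤ u₂ * u₄ / (5 * u₃)
  hv : v = ⌊Real.exp w⌋₊
  hY : Y = ⌊y⌋₊
  hv2 : 2 ≤ v
  hvY : v ≤ Y
  hlv1 : w / 2 ≤ Real.log v
  hlv2 : Real.log v ≤ w
  hlY : u₂ / 4 ≤ Real.log Y
  hVv : V v ≤ 80 * d₂ * u₃ / (u₂ * u₄)
  hVw : V v * w ≤ 2 * d₂
  hVv' : (V v)⁻¹ ≤ w / d₁
  hVlog : -Real.log (V v) ≤ 2 * u₃
  hVd : Real.log (V v) - Real.log (V Y) ≤ 2 * u₄

theorem sizes (K : ℝ) (k : ℕ) (hk : 2 ≤ k) (d₁ d₂ : ℝ) (hd₁ : 0 < d₁) (hd₁₂ : d₁ ≤ d₂)
    (hVV : ∀ z : ℕ, 2 ≤ z → d₁ ≤ V z * Real.log z ∧ V z * Real.log z ≤ d₂) :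
    ∃ X₀ : ℝ, ∀ X : ℝ, X₀ ≤ X → Sz K k d₁ d₂ X (Real.log (Real.log X))
      (Real.log (Real.log (Real.log X))) (Real.log (Real.log (Real.log (Real.log X))))
      (Real.log X / Real.log (Real.log X)) (WW (Real.log X / Real.log (Real.log X)))
      ⌊Real.exp (WW (Real.log X / Real.log (Real.log X)))⌋₊
      ⌊Real.log X / Real.log (Real.log X)⌋₊ := by
  have hd₂ : 0 < d₂ := hd₁.trans_le hd₁₂
  set K' : ℝ := |K| + 1000 + |Real.log d₁| + |Real.log (80 * d₂ / d₁)| with hK'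
  have ha1 := abs_nonneg K
  have ha2 := abs_nonneg (Real.log d₁)
  have ha3 := abs_nonneg (Real.log (80 * d₂ / d₁))
  have hKK := le_abs_self K
  obtain ⟨X₀, h⟩ := evs K' k
  refine ⟨X₀, fun X hX => ?_⟩
  obtain ⟨hX0, a1, a2, a3, a4, a5, a6, a7, a8⟩ := h X hX
  set L1 := Real.log X with hL1
  set u₂ := Real.log L1 with hu₂
  set u₃ := Real.log u₂ with hu₃
  set u₄ := Real.log u₃ with hu₄
  have hK1000 : 1000 ≤ K' := by linarith
  have hK0 : 0 < K' := by linarith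
  have hKK' : K ≤ K' := by linarith
  have hu₄1 : 1000 ≤ u₄ := by linarith
  have hL10 : 0 < L1 := by linarith
  have hu₂0 : 0 < u₂ := by linarith
  have hu₃0 : 0 < u₃ := by linarith
  have hu₄0 : 0 < u₄ := by linarith
  have h43 : u₄ ≤ u₃ := by
    have := Real.log_le_sub_one_of_pos hu₃0
    linarith
  have h32 : u₃ ≤ u₂ := by
    have := Real.log_le_sub_one_of_pos hu₂0
    linarith
  have hu3a : 1 ≤ u₃ := a6
  have hu2a : 1 ≤ u₂ := a7
  have hmono : ∀ (u : ℝ), 1 ≤ u → ∀ j : ℕ, j ≤ k → K * u ^ j ≤ K' * u ^ k := by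
    intro u hu j hj
    calc K * u ^ j ≤ K' * u ^ j := by gcongr
      _ ≤ K' * u ^ k := by
        apply mul_le_mul_of_nonneg_left _ hK0.le
        exact pow_le_pow_right₀ hu hj
  have h42 : K' * u₄ ^ 2 ≤ u₃ := by
    refine le_trans ?_ a2
    apply mul_le_mul_of_nonneg_left _ hK0.le
    exact pow_le_pow_right₀ a5 hk
  have h3q : K' * u₃ ^ 2 ≤ u₂ ^ (1 / 12 : ℝ) := by
    refine le_trans ?_ a3
    apply mul_le_mul_of_nonneg_left _ hK0.le
    exact pow_le_pow_right₀ a6 hk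
  have hq2 : u₂ ^ (1 / 12 : ℝ) ≤ u₂ := by
    calc u₂ ^ (1 / 12 : ℝ) ≤ u₂ ^ (1 : ℝ) := Real.rpow_le_rpow_of_exponent_le hu2a (by norm_num)
      _ = u₂ := Real.rpow_one _
  have h32' : K' * u₃ ^ 2 ≤ u₂ := h3q.trans hq2
  have h21 : K' * u₂ ^ 2 ≤ L1 := by
    refine le_trans ?_ a4
    apply mul_le_mul_of_nonneg_left _ hK0.le
    exact pow_le_pow_right₀ a7 hk
  have hu3b : u₃ ≤ u₂ / 1000 := by
    have h1 : 1000 * u₃ ≤ K' * u₃ ^ 2 := by
      have : u₃ ≤ u₃ ^ 2 := le_self_pow₀ a6 (by norm_num)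
      apply mul_le_mul hK1000 this hu₃0.le hK0.le
    linarith
  set y := L1 / u₂ with hy
  have hy0 : 0 < y := by positivity
  have hKy : K' ≤ y := by
    rw [hy, le_div_iff₀ hu₂0]
    calc K' * u₂ ≤ K' * u₂ ^ 2 := by
          have : u₂ ≤ u₂ ^ 2 := le_self_pow₀ a7 (by norm_num)
          gcongr
      _ ≤ L1 := h21
  have hly : Real.log y = u₂ - u₃ := by
    rw [hy, Real.log_div hL10.ne' hu₂0.ne']
  have hly1 : u₂ / 2 ≤ Real.log y := by rw [hly]; linarith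
  have hly2 : Real.log y ≤ u₂ := by rw [hly]; linarith
  have hly0 : 0 < Real.log y := by linarith
  have hlog2 : Real.log 2 ≤ 1 := by have := Real.log_two_lt_d9; linarith
  set ℓ₂ := Real.log (Real.log y) with hℓ₂
  have hℓ₂1 : u₃ / 2 ≤ ℓ₂ := by
    have h1 := Real.log_le_log (by linarith) hly1
    rw [Real.log_div hu₂0.ne' (by norm_num)] at h1
    linarith
  have hℓ₂2 : ℓ₂ ≤ u₃ := Real.log_le_log hly0 hly2
  have hℓ₂0 : 0 < ℓ₂ := by linarith
  set ℓ₃ := Real.log ℓ₂ with hℓ₃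
  have hℓ₃1 : u₄ / 2 ≤ ℓ₃ := by
    have h1 := Real.log_le_log (by linarith) hℓ₂1
    rw [Real.log_div hu₃0.ne' (by norm_num)] at h1
    linarith
  have hℓ₃2 : ℓ₃ ≤ u₄ := Real.log_le_log hℓ₂0 hℓ₂2
  have hℓ₃0 : 0 < ℓ₃ := by linarith
  have hWW : WW y = Real.log y * ℓ₃ / (10 * ℓ₂) := rfl
  set w := WW y with hw
  have hw1 : u₂ * u₄ / (40 * u₃) ≤ w := by
    rw [hWW]
    calc u₂ * u₄ / (40 * u₃) = (u₂ / 2) * (u₄ / 2) / (10 * u₃) := by field_simp; norm_num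
      _ ≤ _ := by gcongr
  have hw2 : w ≤ u₂ * u₄ / (5 * u₃) := by
    rw [hWW]
    calc Real.log y * ℓ₃ / (10 * ℓ₂) ≤ u₂ * u₄ / (10 * (u₃ / 2)) := by gcongr
      _ = _ := by field_simp; norm_num
  have hw10 : 1000 ≤ w := by
    refine le_trans ?_ hw1
    rw [le_div_iff₀ (by positivity)]
    have h1 : 1000 * (40 * u₃) ≤ K' * u₃ ^ 2 * u₄ := by
      have e1 : u₃ ≤ u₃ ^ 2 := le_self_pow₀ a6 (by norm_num)
      calc 1000 * (40 * u₃) ≤ 1000 * (u₄ * u₃) := by gcongr; linarith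
        _ = 1000 * u₃ * u₄ := by ring
        _ ≤ K' * u₃ ^ 2 * u₄ := by gcongr
    calc 1000 * (40 * u₃) ≤ K' * u₃ ^ 2 * u₄ := h1
      _ ≤ u₂ * u₄ := by gcongr
  have hwy : w ≤ Real.log y := by
    refine hw2.trans ?_
    refine le_trans ?_ hly1
    rw [div_le_div_iff₀ (by positivity) (by norm_num)]
    nlinarith
  set v : ℕ := ⌊Real.exp w⌋₊ with hv
  set Y : ℕ := ⌊y⌋₊ with hY
  have hvle : (v : ℝ) ≤ Real.exp w := Nat.floor_le (Real.exp_pos _).le
  have hvlt : Real.exp w < v + 1 := Nat.lt_floor_add_one _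
  have hexpw : 11 ≤ Real.exp w := by
    have := Real.add_one_le_exp w
    linarith
  have hv2 : 2 ≤ v := by
    have h1 : (1 : ℝ) < v := by linarith
    exact_mod_cast h1
  have hv0 : (0 : ℝ) < v := by exact_mod_cast (by omega : 0 < v)
  have hvY : v ≤ Y := by
    apply Nat.floor_le_floor
    calc Real.exp w ≤ Real.exp (Real.log y) := Real.exp_le_exp.2 hwy
      _ = y := Real.exp_log hy0
  have hY2 : 2 ≤ Y := hv2.trans hvY
  have hY0 : (0 : ℝ) < Y := by exact_mod_cast (by omega : 0 < Y)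
  have hlogv : w / 2 ≤ Real.log v := by
    have e1 : Real.exp w ≤ 2 * v := by linarith
    have e2 := Real.log_le_log (Real.exp_pos _) e1
    rw [Real.log_exp, Real.log_mul (by norm_num) hv0.ne'] at e2
    linarith
  have hlogv2 : Real.log v ≤ w := by
    rw [← Real.log_exp w]; exact Real.log_le_log hv0 hvle
  have hlogv0 : 0 < Real.log v := by linarith
  have hlY : u₂ / 4 ≤ Real.log Y := by
    have h1 : y < Y + 1 := Nat.lt_floor_add_one _
    have h2 : y ≤ 2 * Y := by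
      have : (2 : ℝ) ≤ Y := by exact_mod_cast hY2
      linarith
    have e2 := Real.log_le_log hy0 h2
    rw [Real.log_mul (by norm_num) hY0.ne'] at e2
    linarith
  have hVlow : d₁ / u₂ ≤ V v := by
    have h1 := (hVV v hv2).1
    rw [div_le_iff₀ hu₂0]
    calc d₁ ≤ V v * Real.log v := h1
      _ ≤ V v * u₂ := by
        have := V_pos v
        gcongr
        linarith
  have hVw : V v * w ≤ 2 * d₂ := by
    have h1 := (hVV v hv2).2
    have h2 : V v * (w / 2) ≤ V v * Real.log v := by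
      have := V_pos v
      gcongr
    linarith
  have hVv : V v ≤ 80 * d₂ * u₃ / (u₂ * u₄) := by
    rw [le_div_iff₀ (by positivity)]
    have h1 : V v * (u₂ * u₄ / (40 * u₃)) ≤ 2 * d₂ :=
      (mul_le_mul_of_nonneg_left hw1 (V_pos v).le).trans hVw
    have h2 : V v * (u₂ * u₄) = V v * (u₂ * u₄ / (40 * u₃)) * (40 * u₃) := by
      field_simp
    rw [h2]
    calc V v * (u₂ * u₄ / (40 * u₃)) * (40 * u₃) ≤ 2 * d₂ * (40 * u₃) := by gcongr
      _ = _ := by ring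
  have hVv' : (V v)⁻¹ ≤ w / d₁ := by
    rw [inv_eq_one_div, div_le_div_iff₀ (V_pos v) hd₁, one_mul]
    have h1 := (hVV v hv2).1
    have h2 : V v * Real.log v ≤ V v * w := mul_le_mul_of_nonneg_left hlogv2 (V_pos v).le
    linarith
  refine
    { hX := hX0
      hK4 := by linarith
      h41 := a5
      h43 := h43
      h32 := h32
      h4k := fun j hj => (hmono u₄ a5 j hj).trans a2
      h3k := fun j hj => (hmono u₃ a6 j hj).trans a3
      h2k := fun j hj => (hmono u₂ a7 j hj).trans a4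
      hy := rfl
      hKy := by linarith
      hly1 := hly1
      hly2 := hly2
      hlly := hℓ₂2
      hlly0 := hℓ₂0
      hw := rfl
      hw10 := by linarith
      hwy := hwy
      hw1 := hw1
      hw2 := hw2
      hv := rfl
      hY := rfl
      hv2 := hv2
      hvY := hvY
      hlv1 := hlogv
      hlv2 := hlogv2
      hlY := hlY
      hVv := hVv
      hVw := hVw
      hVv' := hVv'
      hVlog := ?_
      hVd := ?_ }
  · have h1 := Real.log_le_log (by positivity) hVlow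
    rw [Real.log_div hd₁.ne' hu₂0.ne'] at h1
    have h2 := neg_abs_le (Real.log d₁)
    have h3 : |Real.log d₁| ≤ u₃ := by linarith
    linarith
  · have h1 : V v ≤ (80 * d₂ / d₁) * u₃ * V Y := by
      have e1 := (hVV v hv2).2
      have e2 := (hVV Y hY2).1
      have e3 : Real.log Y ≤ u₂ := by
        refine le_trans ?_ hly2
        exact Real.log_le_log hY0 (Nat.floor_le hy0.le)
      have e4 : d₁ ≤ V Y * u₂ :=
        e2.trans (mul_le_mul_of_nonneg_left e3 (V_pos Y).le)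
      have e5 : V v ≤ 80 * d₂ * u₃ / u₂ := by
        refine hVv.trans ?_
        apply div_le_div_of_nonneg_left (by positivity) hu₂0
        calc u₂ = u₂ * 1 := (mul_one _).symm
          _ ≤ u₂ * u₄ := by gcongr
      refine e5.trans ?_
      rw [div_le_iff₀ hu₂0]
      calc 80 * d₂ * u₃ = 80 * d₂ / d₁ * u₃ * d₁ := by field_simp
        _ ≤ 80 * d₂ / d₁ * u₃ * (V Y * u₂) := by gcongr
        _ = _ := by ring
    have h2 := Real.log_le_log (V_pos v) h1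
    rw [Real.log_mul (by positivity) (V_pos Y).ne', Real.log_mul (by positivity) hu₃0.ne'] at h2
    have h3 := le_abs_self (Real.log (80 * d₂ / d₁))
    change Real.log (V v) ≤ Real.log (80 * d₂ / d₁) + u₄ + Real.log (V Y) at h2
    linarith

end Pool.Agent.H80.Pk
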