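import Pool.Agent.H80.Pk.PreK

set_option autoImplicit false

/-! # Nested intervals free of almost primes (helper80) -/

namespace Pool.Agent.H80.Pk

open Finset Filter Pool.Agent.H318R2.Cr TH415.AP Pool.Agent.TH877.M2
open Pool.Agent.H256R2.SC (ff)

open scoped Classical

/-- many prime factors from few small ones -/
theorem many (m j : ℕ) (P : Finset ℕ) (hP : ∀ p ∈ P, p.Prime ∧ p ∣ m) (hj : j ≤ P.card) (B : ℝ)
    (hB : ∀ p ∈ P, (p : ℝ) ≤ B) (hm : B ^ j < m) (hm0 : m ≠ 0) :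
    j + 1 ≤ m.primeFactorsList.length := by
  obtain ⟨Q, hQP, hQ⟩ := exists_subset_card_eq hj
  have h1 : (∏ p ∈ Q, p) ∣ m := by
    apply Finset.prod_primes_dvd
    · intro p hp
      exact (hP p (hQP hp)).1.prime
    · intro p hp
      exact (hP p (hQP hp)).2
  obtain ⟨k, hk⟩ := h1
  have hk0 : k ≠ 0 := by rintro rfl; simp at hk; exact hm0 hk
  have hQ0 : (∏ p ∈ Q, p) ≠ 0 := prod_ne_zero_iff.2 fun p hp => (hP p (hQP hp)).1.ne_zero
  have hk1 : k ≠ 1 := by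
    rintro rfl
    rw [mul_one] at hk
    have h2 : (m : ℝ) ≤ B ^ j := by
      rw [hk]
      push_cast
      rw [← hQ, ← prod_const]
      exact prod_le_prod (fun p _ => Nat.cast_nonneg p) (fun p hp => hB p (hQP hp))
    linarith
  have h4 : m.primeFactorsList.length = ArithmeticFunction.cardFactors m := by
    rw [ArithmeticFunction.cardFactors_apply]
  have h6 : ∀ R : Finset ℕ, R ⊆ P → ArithmeticFunction.cardFactors (∏ p ∈ R, p) = R.card := by
    intro R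
    induction R using Finset.induction_on with
    | empty => intro _; simp
    | insert a R ha ih =>
      intro hR
      have haP := (hP a (hR (mem_insert_self a R))).1
      have h0 : (∏ p ∈ R, p) ≠ 0 := prod_ne_zero_iff.2 fun p hp =>
        (hP p (hR (mem_insert_of_mem hp))).1.ne_zero
      rw [prod_insert ha, ArithmeticFunction.cardFactors_mul haP.ne_zero h0,
        ArithmeticFunction.cardFactors_apply_prime haP,
        ih ((subset_insert a R).trans hR), card_insert_of_notMem ha]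
      omega
  rw [h4, hk, ArithmeticFunction.cardFactors_mul hQ0 hk0, h6 Q hQP, hQ]
  have h5 : 1 ≤ ArithmeticFunction.cardFactors k := by
    rw [Nat.one_le_iff_ne_zero]
    intro h
    rw [ArithmeticFunction.cardFactors_eq_zero_iff_eq_zero_or_one] at h
    rcases h with h | h
    · exact hk0 h
    · exact hk1 h
  omega

theorem fin_evK (k : ℕ) : ∃ X₀ : ℝ, ∀ X : ℝ, X₀ ≤ X →
    Real.log X / 10 ≤ Real.exp (Real.log X ^ (1 / 20 : ℝ)) ∧
    Real.exp (Real.log X ^ (1 / 20 : ℝ)) ^ k < X / 2 := by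
  have t1 := Real.tendsto_log_atTop
  have h1 : ∀ᶠ s : ℝ in atTop, 1 * Real.log s ^ 1 ≤ s ^ (1 / 20 : ℝ) :=
    ev_pow 1 1 (1 / 20) (by norm_num)
  have h2 : ∀ᶠ s : ℝ in atTop, (2 * (k : ℝ) + 1) * s ^ (1 / 20 : ℝ) ≤ s := by
    have e1 := (tendsto_rpow_atTop (show (0 : ℝ) < 19 / 20 by norm_num)).eventually_ge_atTop
      (2 * (k : ℝ) + 1)
    filter_upwards [e1, eventually_gt_atTop (0 : ℝ)] with s hs hs0
    have e2 : s = s ^ (19 / 20 : ℝ) * s ^ (1 / 20 : ℝ) := by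
      rw [← Real.rpow_add hs0]; norm_num
    have e3 : 0 ≤ s ^ (1 / 20 : ℝ) := by positivity
    calc (2 * (k : ℝ) + 1) * s ^ (1 / 20 : ℝ) ≤ s ^ (19 / 20 : ℝ) * s ^ (1 / 20 : ℝ) := by gcongr
      _ = s := e2.symm
  have h3 : ∀ᶠ s : ℝ in atTop, (10 : ℝ) ≤ s := eventually_ge_atTop 10
  obtain ⟨X₀, h⟩ := eventually_atTop.1 (((t1.eventually (h1.and (h2.and h3)))).and
    (eventually_gt_atTop (0 : ℝ)))
  refine ⟨X₀, fun X hX => ?_⟩
  obtain ⟨⟨a1, a2, a3⟩, a4⟩ := h X hX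
  set L := Real.log X with hL
  rw [one_mul, pow_one] at a1
  have hL0 : 0 < L := by linarith
  have hq0 : 0 ≤ L ^ (1 / 20 : ℝ) := Real.rpow_nonneg hL0.le _
  refine ⟨?_, ?_⟩
  · calc L / 10 ≤ L := by linarith
      _ = Real.exp (Real.log L) := (Real.exp_log hL0).symm
      _ ≤ _ := Real.exp_le_exp.2 a1
  · rw [← Real.exp_nat_mul]
    have h5 : (k : ℝ) * L ^ (1 / 20 : ℝ) ≤ L / 2 := by nlinarith
    have h6 : X = Real.exp (L / 2) * Real.exp (L / 2) := by
      rw [← Real.exp_add, add_halves, hL, Real.exp_log a4]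
    have h7 : 2 < Real.exp (L / 2) := by
      have := Real.add_one_le_exp (L / 2)
      linarith
    have h8 := Real.exp_le_exp.2 h5
    rw [h6]
    nlinarith

theorem RR_le (X : ℝ) (h1 : 1 ≤ Real.log (Real.log X))
    (h3 : 1 ≤ Real.log (Real.log (Real.log X))) (hL : 0 < Real.log X) :
    ∀ j : ℕ, 2 ≤ j → RR X j ≤ Real.log X * Real.log (Real.log X) := by
  intro j hj
  rcases j with _ | _ | _ | _ | i
  · omega
  · omega
  · exact le_rfl
  · change Real.log X * (Real.log (Real.log X)) ^ (1 / 3 : ℝ) ≤ _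
    apply mul_le_mul_of_nonneg_left _ hL.le
    calc Real.log (Real.log X) ^ (1 / 3 : ℝ) ≤ Real.log (Real.log X) ^ (1 : ℝ) :=
          Real.rpow_le_rpow_of_exponent_le h1 (by norm_num)
      _ = _ := Real.rpow_one _
  · change Real.log X / (Real.log (Real.log (Real.log X))) ^ i ≤ _
    exact (div_le_self hL.le (one_le_pow₀ h3)).trans (le_mul_of_one_le_right hL.le h1)

theorem baseK (k : ℕ) (hk : 2 ≤ k) : ∃ c : ℝ, 0 < c ∧ ∃ X₀ : ℝ, ∀ X : ℝ, X₀ ≤ X → ∀ Y : ℝ,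
    X ≤ Y → ∃ n : ℕ, Y < n ∧ (n : ℝ) ≤ Y + X ∧
      ∀ j : ℕ, 1 ≤ j → j ≤ k → ∀ m : ℕ, |(m : ℝ) - n| ≤ c * RR X j →
        j + 1 ≤ m.primeFactorsList.length := by
  obtain ⟨c₀, hc₀, X₁, hrun⟩ := run_dbl
  have hk0 : (0 : ℝ) < k := by exact_mod_cast (by omega : 0 < k)
  obtain ⟨c, hc, X₂, hb⟩ := preK k hk (c₀ / k) (by positivity)
  obtain ⟨X₃, hev⟩ := fin_ev c hc
  obtain ⟨X₄, hevK⟩ := fin_evK k
  obtain ⟨X₅, hev5⟩ := evs 1 1
  refine ⟨c, hc, max X₁ (max X₂ (max X₃ (max X₄ X₅))), fun X hX Y hXY => ?_⟩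
  have hX1 := (le_max_left _ _).trans hX
  have hX' := (le_max_right _ _).trans hX
  have hX2 := (le_max_left _ _).trans hX'
  have hX'' := (le_max_right _ _).trans hX'
  have hX3 := (le_max_left _ _).trans hX''
  have hX''' := (le_max_right _ _).trans hX''
  have hX4 := (le_max_left _ _).trans hX'''
  have hX5 := (le_max_right _ _).trans hX'''
  obtain ⟨b, hbb⟩ := hb X hX2
  obtain ⟨a1, a2, a3, a4, a5, a6, a7, a8⟩ := hev X hX3
  obtain ⟨g1, g2⟩ := hevK X hX4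
  obtain ⟨-, -, -, -, -, -, g3, -, -⟩ := hev5 X hX5
  set L := Real.log X with hL
  set l := Real.log L with hl
  have hL0 : 0 < L := by linarith
  set S : Finset ℤ := (Icc 1 k).biUnion (fun j => (Icc (-⌊c * RR X j⌋) ⌊c * RR X j⌋).filter
      (fun m : ℤ => hits (Pz ⌊L / 10⌋₊) b m + 1 ≤ j)) with hS
  set D : Finset ℤ := (Icc 1 k).biUnion (fun j => (Icc (-⌊c * RR X j⌋) ⌊c * RR X j⌋).filter
      (fun m : ℤ => hits (Pz ⌊L / 10⌋₊) b m + 2 ≤ j)) with hD
  have hmem : ∀ (r : ℝ) (k : ℤ), k ∈ Finset.Icc (-⌊r⌋) ⌊r⌋ ↔ |(k : ℝ)| ≤ r := by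
    intro r k
    rw [Finset.mem_Icc, abs_le]
    constructor
    · rintro ⟨h1, h2⟩
      have h3 := Int.floor_le r
      have h4 : (-(⌊r⌋ : ℝ)) ≤ k := by exact_mod_cast h1
      have h5 : (k : ℝ) ≤ ⌊r⌋ := by exact_mod_cast h2
      constructor <;> linarith
    · rintro ⟨h1, h2⟩
      refine ⟨?_, Int.le_floor.2 h2⟩
      have : -k ≤ ⌊r⌋ := Int.le_floor.2 (by push_cast; linarith)
      linarith
  have hRL : ∀ j, 1 ≤ j → c * RR X j ≤ L ^ 2 := by
    intro j hj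
    rcases Nat.eq_or_lt_of_le hj with rfl | hj2
    · exact a5
    · have h1 := RR_le X a3 g3 hL0 j hj2
      calc c * RR X j ≤ c * (L * l) := by gcongr
        _ ≤ c * ff X := a6
        _ ≤ L ^ 2 := a5
  have hDS : D ⊆ S := by
    intro m hm
    rw [hD, mem_biUnion] at hm
    obtain ⟨j, hj, hmj⟩ := hm
    rw [hS, mem_biUnion]
    refine ⟨j, hj, ?_⟩
    rw [mem_filter] at hmj ⊢
    exact ⟨hmj.1, by omega⟩
  have hcl : 0 ≤ l ^ (2 / 3 : ℝ) := Real.rpow_nonneg (by linarith) _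
  obtain ⟨n, n1, n2, n3, n4, n5⟩ := hrun X hX1 Y b S D hDS
    (by
      intro m hm
      rw [hS, mem_biUnion] at hm
      obtain ⟨j, hj, hmj⟩ := hm
      rw [mem_filter, hmem] at hmj
      rw [mem_Icc] at hj
      exact hmj.1.trans (hRL j hj.1))
    (by
      have h1 : (S.card : ℝ) ≤ ∑ j ∈ Icc 1 k, (((Icc (-⌊c * RR X j⌋) ⌊c * RR X j⌋).filter
          (fun m : ℤ => hits (Pz ⌊L / 10⌋₊) b m + 1 ≤ j)).card : ℝ) := by
        exact_mod_cast card_biUnion_le
      refine h1.trans ?_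
      have h2 : ∀ j ∈ Icc 1 k, (((Icc (-⌊c * RR X j⌋) ⌊c * RR X j⌋).filter
          (fun m : ℤ => hits (Pz ⌊L / 10⌋₊) b m + 1 ≤ j)).card : ℝ) ≤ c₀ / k * L := by
        intro j hj
        rw [mem_Icc] at hj
        exact (hbb j hj.1 hj.2).1
      refine (sum_le_sum h2).trans ?_
      rw [sum_const, nsmul_eq_mul, Nat.card_Icc, Nat.add_sub_cancel]
      have h3 : (k : ℝ) * (c₀ / k * L) = c₀ * L := by field_simp
      exact h3.le)
    (by
      have h1 : (D.card : ℝ) ≤ ∑ j ∈ Icc 1 k, (((Icc (-⌊c * RR X j⌋) ⌊c * RR X j⌋).filter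
          (fun m : ℤ => hits (Pz ⌊L / 10⌋₊) b m + 2 ≤ j)).card : ℝ) := by
        exact_mod_cast card_biUnion_le
      refine (mul_le_mul_of_nonneg_right h1 hcl).trans ?_
      rw [sum_mul]
      have h2 : ∀ j ∈ Icc 1 k, (((Icc (-⌊c * RR X j⌋) ⌊c * RR X j⌋).filter
          (fun m : ℤ => hits (Pz ⌊L / 10⌋₊) b m + 2 ≤ j)).card : ℝ) * l ^ (2 / 3 : ℝ) ≤
          c₀ / k * L := by
        intro j hj
        rw [mem_Icc] at hj
        exact (hbb j hj.1 hj.2).2.1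
      refine (sum_le_sum h2).trans ?_
      rw [sum_const, nsmul_eq_mul, Nat.card_Icc, Nat.add_sub_cancel]
      have h3 : (k : ℝ) * (c₀ / k * L) = c₀ * L := by field_simp
      exact h3.le)
  have hn0 : 0 ≤ n := by
    have : (0 : ℝ) < n := by linarith
    exact_mod_cast this.le
  obtain ⟨n', rfl⟩ := Int.eq_ofNat_of_zero_le hn0
  have hnY : Y < (n' : ℝ) := by exact_mod_cast n1
  refine ⟨n', hnY, by exact_mod_cast n2, fun j hj1 hjk m hm => ?_⟩
  have hmX : X / 2 < m := by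
    have h1 := hm.trans (hRL j hj1)
    rw [abs_le] at h1
    linarith
  have hm0 : m ≠ 0 := by
    rintro rfl
    simp only [Nat.cast_zero] at hmX
    linarith
  set κ : ℤ := (m : ℤ) - n' with hκ
  have hκr : |(κ : ℝ)| ≤ c * RR X j := by
    rw [hκ]; push_cast; exact hm
  have hκI := (hmem (c * RR X j) κ).2 hκr
  have hsmall : ∀ p : ℕ, p.Prime → (p : ℝ) ≤ L / 10 → (p : ℤ) ∣ κ - b p → p ∣ m := by
    intro p hp hpL hd
    have h1 := dvd_add hd (n3 p hp hpL)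
    have h2 : κ - b p + ((n' : ℤ) + b p) = m := by rw [hκ]; ring
    rw [h2] at h1
    exact_mod_cast h1
  have hbig : ∀ p : ℕ, (p : ℤ) ∣ (n' : ℤ) + κ → p ∣ m := by
    intro p h
    have h2 : (n' : ℤ) + κ = m := by rw [hκ]; ring
    rw [h2] at h
    exact_mod_cast h
  set Z := ⌊L / 10⌋₊ with hZ
  have hPz : ∀ p ∈ Pz Z, p.Prime ∧ (p : ℝ) ≤ L / 10 := by
    intro p hp
    rw [mem_Pz] at hp
    refine ⟨hp.1, ?_⟩
    have h1 : (Z : ℝ) ≤ L / 10 := Nat.floor_le (by positivity)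
    have h2 : (p : ℝ) ≤ Z := by exact_mod_cast hp.2
    linarith
  set E := Real.exp (L ^ (1 / 20 : ℝ)) with hE
  have hE1 : 1 ≤ E := Real.one_le_exp (Real.rpow_nonneg hL0.le _)
  have hEj : E ^ j < m := by
    calc E ^ j ≤ E ^ k := pow_le_pow_right₀ hE1 hjk
      _ < X / 2 := g2
      _ < m := hmX
  have hL3 : L / 10 < L ^ 3 := by
    have : L < L ^ 3 := lt_self_pow₀ (by linarith) (by norm_num)
    linarith
  set P₀ := (Pz Z).filter (fun p : ℕ => (p : ℤ) ∣ κ - b p) with hP₀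
  have hP₀c : P₀.card = hits (Pz Z) b κ := rfl
  have hP₀1 : ∀ p ∈ P₀, p.Prime ∧ p ∣ m := by
    intro p hp
    rw [hP₀, mem_filter] at hp
    have h1 := hPz p hp.1
    exact ⟨h1.1, hsmall p h1.1 h1.2 hp.2⟩
  have hP₀2 : ∀ p ∈ P₀, (p : ℝ) ≤ L / 10 := by
    intro p hp
    rw [hP₀, mem_filter] at hp
    exact (hPz p hp.1).2
  have hP₀3 : ∀ p ∈ P₀, (p : ℝ) ≤ E := fun p hp => (hP₀2 p hp).trans g1
  have hmin := (hbb j hj1 hjk).2.2 κ (by
    rw [mem_Icc] at hκI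
    rw [abs_le]
    exact hκI)
  rcases Nat.lt_or_ge (hits (Pz Z) b κ) j with hlt | hge
  · rcases Nat.lt_or_ge (hits (Pz Z) b κ + 1) j with hlt2 | hge2
    · -- two large hits
      have hκD : κ ∈ D := by
        rw [hD, mem_biUnion]
        refine ⟨j, mem_Icc.2 ⟨hj1, hjk⟩, ?_⟩
        rw [mem_filter]
        exact ⟨hκI, by omega⟩
      obtain ⟨p, q, hp, hq, hpq, hp1, hq1, hp2, hq2, hp3, hq3⟩ := n5 κ hκD
      have hq0 : q ∉ P₀ := fun h => by
        have := hP₀2 q h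
        linarith
      have hp0 : p ∉ insert q P₀ := fun h => by
        rcases mem_insert.1 h with h | h
        · exact hpq h
        · have := hP₀2 p h
          linarith
      apply many m j (insert p (insert q P₀)) _ _ E _ hEj hm0
      · intro r hr
        rcases mem_insert.1 hr with rfl | hr
        · exact ⟨hp, hbig r hp3⟩
        · rcases mem_insert.1 hr with rfl | hr
          · exact ⟨hq, hbig r hq3⟩
          · exact hP₀1 r hr
      · rw [card_insert_of_notMem hp0, card_insert_of_notMem hq0]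
        omega
      · intro r hr
        rcases mem_insert.1 hr with rfl | hr
        · exact hp2
        · rcases mem_insert.1 hr with rfl | hr
          · exact hq2
          · exact hP₀3 r hr
    · -- one large hit
      have hκS : κ ∈ S := by
        rw [hS, mem_biUnion]
        refine ⟨j, mem_Icc.2 ⟨hj1, hjk⟩, ?_⟩
        rw [mem_filter]
        exact ⟨hκI, by omega⟩
      obtain ⟨q, hq, hq1, hq2, hq3⟩ := n4 κ hκS
      have hq0 : q ∉ P₀ := fun h => by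
        have := hP₀2 q h
        linarith
      apply many m j (insert q P₀) _ _ E _ hEj hm0
      · intro r hr
        rcases mem_insert.1 hr with rfl | hr
        · exact ⟨hq, hbig r hq3⟩
        · exact hP₀1 r hr
      · rw [card_insert_of_notMem hq0]
        omega
      · intro r hr
        rcases mem_insert.1 hr with rfl | hr
        · exact hq2
        · exact hP₀3 r hr
  · exact many m j P₀ hP₀1 hge E hP₀3 hEj hm0

theorem RR_pow (θ : ℝ) (h0 : 0 < θ) (h1 : θ ≤ 1) : ∃ x₀ : ℝ, ∀ x : ℝ, x₀ ≤ x →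
    1 < x ∧ ∀ j : ℕ, θ / 8 * RR x j ≤ RR (x ^ θ) j := by
  obtain ⟨X₁, h₁⟩ := Pool.Agent.H256R2.SC.LG.ev_log (max 100 (-(2 * Real.log θ)))
  obtain ⟨X₂, hf⟩ := ff_pow θ h0 h1
  refine ⟨max (max X₁ 2) X₂, fun x hx => ?_⟩
  obtain ⟨-, m1, m2, m3, m4⟩ := h₁ x (((le_max_left _ _).trans (le_max_left _ _)).trans hx)
  have hx2 : 2 ≤ x := ((le_max_right _ _).trans (le_max_left _ _)).trans hx
  obtain ⟨f1, f2, f3⟩ := hf x ((le_max_right _ _).trans hx)
  have M1 : (100 : ℝ) ≤ max 100 (-(2 * Real.log θ)) := le_max_left _ _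
  have M2 : -(2 * Real.log θ) ≤ max 100 (-(2 * Real.log θ)) := le_max_right _ _
  have hx0 : 0 < x := by linarith
  refine ⟨f1, fun j => ?_⟩
  have e1 : Real.log (x ^ θ) = θ * Real.log x := Real.log_rpow hx0 θ
  set l1 := Real.log x with hl1
  set l2 := Real.log l1 with hl2
  set l3 := Real.log l2 with hl3
  set l4 := Real.log l3 with hl4
  have p1 : 0 < l1 := by linarith
  have p2 : 0 < l2 := by linarith
  have p3 : 0 < l3 := by linarith
  have hlθ : Real.log θ ≤ 0 := Real.log_nonpos h0.le h1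
  have hln2 : Real.log 2 < 1 := by have := Real.log_two_lt_d9; linarith
  have e2 : Real.log (θ * l1) = Real.log θ + l2 := Real.log_mul h0.ne' p1.ne'
  have e2a : l2 / 2 ≤ Real.log θ + l2 := by linarith
  have e2b : Real.log θ + l2 ≤ l2 := by linarith
  have e2p : 0 < Real.log θ + l2 := by linarith
  have e3b : Real.log (Real.log θ + l2) ≤ l3 := Real.log_le_log e2p e2b
  have e3a : l3 / 2 ≤ Real.log (Real.log θ + l2) := by
    have := Real.log_le_log (by linarith) e2a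
    rw [Real.log_div p2.ne' (by norm_num)] at this
    change l3 - Real.log 2 ≤ _ at this
    linarith
  have e3p : 0 < Real.log (Real.log θ + l2) := by linarith
  rcases j with _ | _ | _ | _ | i
  · exact f2
  · exact f2
  · exact f3
  · change θ / 8 * (l1 * l2 ^ (1 / 3 : ℝ)) ≤
      Real.log (x ^ θ) * (Real.log (Real.log (x ^ θ))) ^ (1 / 3 : ℝ)
    rw [e1, e2]
    have h5 : (l2 / 2) ^ (1 / 3 : ℝ) ≤ (Real.log θ + l2) ^ (1 / 3 : ℝ) :=
      Real.rpow_le_rpow (by positivity) e2a (by norm_num)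
    have h6 : (l2 / 2) ^ (1 / 3 : ℝ) = l2 ^ (1 / 3 : ℝ) * (1 / 2 : ℝ) ^ (1 / 3 : ℝ) := by
      rw [← Real.mul_rpow p2.le (by norm_num)]
      congr 1
      ring
    have h7 : (1 / 8 : ℝ) ≤ (1 / 2 : ℝ) ^ (1 / 3 : ℝ) := by
      calc (1 / 8 : ℝ) ≤ (1 / 2 : ℝ) ^ (1 : ℝ) := by rw [Real.rpow_one]; norm_num
        _ ≤ (1 / 2 : ℝ) ^ (1 / 3 : ℝ) :=
          Real.rpow_le_rpow_of_exponent_ge (by norm_num) (by norm_num) (by norm_num)
    have h8 : 0 ≤ l2 ^ (1 / 3 : ℝ) := by positivity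
    have h9 : l2 ^ (1 / 3 : ℝ) * (1 / 8) ≤ (Real.log θ + l2) ^ (1 / 3 : ℝ) := by
      refine le_trans ?_ h5
      rw [h6]
      gcongr
    calc θ / 8 * (l1 * l2 ^ (1 / 3 : ℝ)) = θ * l1 * (l2 ^ (1 / 3 : ℝ) * (1 / 8)) := by ring
      _ ≤ _ := by gcongr
  · change θ / 8 * (l1 / l3 ^ i) ≤
      Real.log (x ^ θ) / (Real.log (Real.log (Real.log (x ^ θ)))) ^ i
    rw [e1, e2]
    have h5 : (Real.log (Real.log θ + l2)) ^ i ≤ l3 ^ i := by gcongr
    calc θ / 8 * (l1 / l3 ^ i) ≤ θ * (l1 / l3 ^ i) := by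
          have : 0 ≤ l1 / l3 ^ i := by positivity
          gcongr
          linarith
      _ = θ * l1 / l3 ^ i := by ring
      _ ≤ _ := by gcongr

theorem shortK (k : ℕ) (hk : 2 ≤ k) (θ : ℝ) (h0 : 0 < θ) (h1 : θ ≤ 1) :
    ∃ c : ℝ, 0 < c ∧ ∃ x₀ : ℝ, ∀ x : ℝ, x₀ ≤ x →
    ∃ n : ℕ, x < n ∧ (n : ℝ) ≤ x + x ^ θ ∧
      ∀ j : ℕ, 1 ≤ j → j ≤ k → ∀ m : ℕ, |(m : ℝ) - n| ≤ c * RR x j →
        j + 1 ≤ m.primeFactorsList.length := by
  obtain ⟨c, hc, X₁, hb⟩ := baseK k hk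
  obtain ⟨X₂, hf⟩ := RR_pow θ h0 h1
  have h2 : ∀ᶠ x : ℝ in atTop, X₁ ≤ x ^ θ := (tendsto_rpow_atTop h0).eventually_ge_atTop X₁
  obtain ⟨X₃, h3⟩ := Filter.eventually_atTop.1 h2
  refine ⟨c * (θ / 8), by positivity, max X₂ X₃, fun x hx => ?_⟩
  obtain ⟨a1, a2⟩ := hf x ((le_max_left _ _).trans hx)
  have hY : x ^ θ ≤ x := by
    calc x ^ θ ≤ x ^ (1 : ℝ) := Real.rpow_le_rpow_of_exponent_le a1.le h1
      _ = x := Real.rpow_one x
  obtain ⟨n, n1, n2, n3⟩ := hb (x ^ θ) (h3 x ((le_max_right _ _).trans hx)) x hY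
  refine ⟨n, n1, n2, fun j hj1 hjk m hm => n3 j hj1 hjk m (hm.trans ?_)⟩
  rw [mul_assoc]
  exact mul_le_mul_of_nonneg_left (a2 j) hc.le

end Pool.Agent.H80.Pk
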