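import Mathlib

set_option autoImplicit false

/-! # The inequality of Hall and Tenenbaum for weights decreasing under divisibility (helper80) -/

namespace Pool.Agent.H80.Pk

open Finset ArithmeticFunction

open scoped Chebyshev

theorem pairs_filter (N n : ℕ) (hn1 : 1 ≤ n) (hn2 : n ≤ N) :
    ((Icc 1 N ×ˢ Icc 1 N).filter (fun x : ℕ × ℕ => x.1 * x.2 ≤ N)).filter
      (fun x : ℕ × ℕ => x.1 * x.2 = n) = n.divisorsAntidiagonal := by
  ext ⟨d, m⟩
  simp only [mem_filter, mem_product, mem_Icc, Nat.mem_divisorsAntidiagonal]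
  constructor
  · rintro ⟨⟨⟨⟨h1, h2⟩, h3, h4⟩, h5⟩, h6⟩
    exact ⟨h6, by omega⟩
  · rintro ⟨rfl, h⟩
    have hd : 1 ≤ d := Nat.pos_of_ne_zero (fun h0 => h (by rw [h0]; simp))
    have hm : 1 ≤ m := Nat.pos_of_ne_zero (fun h0 => h (by rw [h0]; simp))
    have h1 : d ≤ d * m := Nat.le_mul_of_pos_right d hm
    have h2 : m ≤ d * m := Nat.le_mul_of_pos_left m hd
    exact ⟨⟨⟨⟨hd, by omega⟩, hm, by omega⟩, hn2⟩, rfl⟩

theorem sum_log (f : ℕ → ℝ)
    (hf : ∀ d m : ℕ, 0 < d → 0 < m → f (d * m) ≤ f m) (N : ℕ) :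
    ∑ n ∈ Icc 1 N, f n * Real.log n ≤ ∑ m ∈ Icc 1 N, f m * ψ ((N / m : ℕ) : ℝ) := by
  have h1 : ∀ n ∈ Icc 1 N, f n * Real.log n ≤
      ∑ x ∈ n.divisorsAntidiagonal, Λ x.1 * f x.2 := by
    intro n hn
    rw [mem_Icc] at hn
    rw [← vonMangoldt_sum (n := n), ← Nat.map_div_right_divisors, mul_sum, sum_map]
    apply sum_le_sum
    intro d hd
    have hdn := Nat.dvd_of_mem_divisors hd
    have hd0 : 0 < d := Nat.pos_of_mem_divisors hd
    have h2 : 0 < n / d := Nat.div_pos (Nat.le_of_dvd (by omega) hdn) hd0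
    have h3 := hf d (n / d) hd0 h2
    rw [Nat.mul_div_cancel' hdn] at h3
    change f n * Λ d ≤ Λ d * f (n / d)
    rw [mul_comm (f n)]
    exact mul_le_mul_of_nonneg_left h3 vonMangoldt_nonneg
  refine (sum_le_sum h1).trans ?_
  set P := (Icc 1 N ×ˢ Icc 1 N).filter (fun x : ℕ × ℕ => x.1 * x.2 ≤ N) with hP
  have h2 : ∑ n ∈ Icc 1 N, ∑ x ∈ n.divisorsAntidiagonal, Λ x.1 * f x.2 =
      ∑ x ∈ P, Λ x.1 * f x.2 := by
    rw [← sum_fiberwise_of_maps_to (s := P) (t := Icc 1 N) (g := fun x : ℕ × ℕ => x.1 * x.2)]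
    · apply sum_congr rfl
      intro n hn
      rw [mem_Icc] at hn
      rw [hP, pairs_filter N n hn.1 hn.2]
    · rintro ⟨d, m⟩ h
      rw [hP, mem_filter, mem_product, mem_Icc, mem_Icc] at h
      rw [mem_Icc]
      exact ⟨Nat.mul_pos h.1.1.1 h.1.2.1, h.2⟩
  rw [h2, hP, sum_filter, sum_product_right]
  apply sum_le_sum
  intro m hm
  rw [mem_Icc] at hm
  rw [← sum_filter]
  have h3 : (Icc 1 N).filter (fun d : ℕ => d * m ≤ N) = Ioc 0 (N / m) := by
    ext d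
    rw [mem_filter, mem_Icc, mem_Ioc, Nat.le_div_iff_mul_le (by omega)]
    constructor
    · rintro ⟨⟨h1, h2⟩, h3⟩
      exact ⟨by omega, h3⟩
    · rintro ⟨h1, h2⟩
      have : d ≤ d * m := Nat.le_mul_of_pos_right d (by omega)
      exact ⟨⟨by omega, by omega⟩, h2⟩
  simp only [h3]
  rw [← sum_mul, mul_comm]
  apply le_of_eq
  unfold Chebyshev.psi
  rw [Nat.floor_natCast]

/-- Hall and Tenenbaum's inequality -/
theorem ht_ineq (f : ℕ → ℝ) (hf0 : ∀ n, 0 ≤ f n)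
    (hf : ∀ d m : ℕ, 0 < d → 0 < m → f (d * m) ≤ f m) (N : ℕ) (hN : 2 ≤ N) :
    ∑ n ∈ Icc 1 N, f n ≤ 7 * N / Real.log N * ∑ m ∈ Icc 1 N, f m / m := by
  have hN0 : (0 : ℝ) < N := by exact_mod_cast (by omega : 0 < N)
  have hl : 0 < Real.log N := Real.log_pos (by exact_mod_cast (by omega : 1 < N))
  have h1 : ∑ n ∈ Icc 1 N, f n * Real.log N ≤ 7 * N * ∑ m ∈ Icc 1 N, f m / m := by
    have h2 : ∑ n ∈ Icc 1 N, f n * Real.log N =
        ∑ n ∈ Icc 1 N, f n * Real.log n + ∑ n ∈ Icc 1 N, f n * Real.log (N / n) := by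
      rw [← sum_add_distrib]
      apply sum_congr rfl
      intro n hn
      rw [mem_Icc] at hn
      have hn0 : (0 : ℝ) < n := by exact_mod_cast hn.1
      rw [Real.log_div hN0.ne' hn0.ne']
      ring
    have h3 := sum_log f hf N
    have h4 : ∑ m ∈ Icc 1 N, f m * ψ ((N / m : ℕ) : ℝ) ≤ ∑ m ∈ Icc 1 N, 6 * N * (f m / m) := by
      apply sum_le_sum
      intro m hm
      rw [mem_Icc] at hm
      have hm0 : (0 : ℝ) < m := by exact_mod_cast hm.1
      have h5 : ψ ((N / m : ℕ) : ℝ) ≤ (Real.log 4 + 4) * ((N / m : ℕ) : ℝ) :=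
        Chebyshev.psi_le_const_mul_self (Nat.cast_nonneg _)
      have h6 : ((N / m : ℕ) : ℝ) ≤ (N : ℝ) / m := Nat.cast_div_le
      have h7 : Real.log 4 ≤ 2 := by
        rw [show (4 : ℝ) = 2 ^ 2 by norm_num, Real.log_pow]
        have := Real.log_two_lt_d9
        push_cast; linarith
      have h8 : ψ ((N / m : ℕ) : ℝ) ≤ 6 * (N / m) := by
        refine h5.trans ?_
        have h9 : (0 : ℝ) ≤ ((N / m : ℕ) : ℝ) := Nat.cast_nonneg _
        nlinarith
      calc f m * ψ ((N / m : ℕ) : ℝ) ≤ f m * (6 * (N / m)) :=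
            mul_le_mul_of_nonneg_left h8 (hf0 m)
        _ = _ := by ring
    have h5 : ∑ n ∈ Icc 1 N, f n * Real.log (N / n) ≤ ∑ m ∈ Icc 1 N, 1 * N * (f m / m) := by
      apply sum_le_sum
      intro m hm
      rw [mem_Icc] at hm
      have hm0 : (0 : ℝ) < m := by exact_mod_cast hm.1
      have h6 : Real.log (N / m) ≤ N / m := by
        have := Real.log_le_sub_one_of_pos (show (0 : ℝ) < N / m by positivity)
        linarith
      calc f m * Real.log (N / m) ≤ f m * (N / m) := mul_le_mul_of_nonneg_left h6 (hf0 m)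
        _ = _ := by ring
    rw [← mul_sum] at h4 h5
    rw [h2]
    linarith
  rw [← sum_mul] at h1
  rw [div_mul_eq_mul_div, le_div_iff₀ hl]
  exact h1

end Pool.Agent.H80.Pk
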