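import Pool.Agent.H80.Pk.Des
import Pool.Graph.R_seed8.TH877.M2.Fin2

set_option autoImplicit false

/-! # The choice of the classes of the small primes (helper80) -/

namespace Pool.Agent.H80.Pk

open Finset Filter Pool.Agent.H318R2.Cr Pool.Agent.H361R2.PA TH415.AP Pool.Agent.H398R2.RK
open Pool.Agent.H256R2.SC (ff)

open scoped Classical

/-- the radii -/
noncomputable def RR (X : ℝ) : ℕ → ℝ
  | 0 => ff X
  | 1 => ff X
  | 2 => Real.log X * Real.log (Real.log X)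
  | 3 => Real.log X * (Real.log (Real.log X)) ^ (1 / 3 : ℝ)
  | (i + 4) => Real.log X / (Real.log (Real.log (Real.log X))) ^ i

/-- the density of the points with at most `h` hits -/
noncomputable def pf (u₂ u₃ u₄ : ℝ) (h : ℕ) : ℝ :=
  if h = 0 then u₃ ^ 2 / (u₂ ^ 2 * u₄) else u₃ ^ (h - 1) / u₂

theorem rad_num (X u₂ u₃ u₄ : ℝ) (h2 : u₂ = Real.log (Real.log X)) (h3 : u₃ = Real.log u₂)
    (h4 : u₄ = Real.log u₃) (hL : 0 < Real.log X) (hu₂ : 1 ≤ u₂) (hu₃ : 1 ≤ u₃) (hu₄ : 1 ≤ u₄)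
    (hq : u₃ ^ 2 ≤ u₂ ^ (1 / 12 : ℝ)) :
    (∀ j : ℕ, 1 ≤ j → RR X j * pf u₂ u₃ u₄ (j - 1) ≤ Real.log X) ∧
    (∀ j : ℕ, 2 ≤ j → RR X j * pf u₂ u₃ u₄ (j - 2) * u₂ ^ (2 / 3 : ℝ) ≤ Real.log X) ∧
    (∀ j : ℕ, 3 ≤ j → RR X j * pf u₂ u₃ u₄ (j - 3) ≤ Real.log X / u₂) := by
  set L1 := Real.log X with hL1
  have hu₂0 : 0 < u₂ := by linarith
  have hu₃0 : 0 < u₃ := by linarith
  have hu₄0 : 0 < u₄ := by linarith
  set q := u₂ ^ (1 / 12 : ℝ) with hqd
  have hq0 : 0 < q := Real.rpow_pos_of_pos hu₂0 _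
  have hq1 : 1 ≤ q := Real.one_le_rpow hu₂ (by norm_num)
  have e12 : u₂ = q ^ 12 := by
    rw [hqd, ← Real.rpow_natCast, ← Real.rpow_mul hu₂0.le]
    norm_num
  have e13 : u₂ ^ (1 / 3 : ℝ) = q ^ 4 := by
    rw [hqd, ← Real.rpow_natCast, ← Real.rpow_mul hu₂0.le]
    norm_num
  have e23 : u₂ ^ (2 / 3 : ℝ) = q ^ 8 := by
    rw [hqd, ← Real.rpow_natCast, ← Real.rpow_mul hu₂0.le]
    norm_num
  have h3q : u₃ ≤ q := by
    have : u₃ ≤ u₃ ^ 2 := le_self_pow₀ hu₃ (by norm_num)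
    linarith
  have hF : ff X = L1 * u₂ ^ 2 * u₄ / u₃ ^ 2 := by
    unfold ff
    rw [h4, h3, h2]
  refine ⟨?_, ?_, ?_⟩
  · intro j hj
    rcases j with _ | _ | _ | _ | i
    · omega
    · change ff X * pf u₂ u₃ u₄ 0 ≤ L1
      rw [hF, pf, if_pos rfl]
      apply le_of_eq
      field_simp
    · change L1 * Real.log L1 * pf u₂ u₃ u₄ 1 ≤ L1
      rw [← h2, pf, if_neg (by norm_num)]
      apply le_of_eq
      simp only [Nat.sub_self, pow_zero]
      field_simp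
    · change L1 * (Real.log L1) ^ (1 / 3 : ℝ) * pf u₂ u₃ u₄ 2 ≤ L1
      rw [← h2, e13, pf, if_neg (by norm_num), e12]
      have : q ^ 4 * (u₃ ^ (2 - 1) / q ^ 12) ≤ 1 := by
        rw [← mul_div_assoc, div_le_one (by positivity)]
        simp only [show 2 - 1 = 1 from rfl, pow_one]
        calc q ^ 4 * u₃ ≤ q ^ 4 * q := by gcongr
          _ = q ^ 5 := by ring
          _ ≤ q ^ 12 := pow_le_pow_right₀ hq1 (by norm_num)
      calc L1 * q ^ 4 * (u₃ ^ (2 - 1) / q ^ 12) = L1 * (q ^ 4 * (u₃ ^ (2 - 1) / q ^ 12)) := by ring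
        _ ≤ L1 * 1 := by gcongr
        _ = L1 := mul_one _
    · change L1 / (Real.log (Real.log L1)) ^ i * pf u₂ u₃ u₄ (i + 3) ≤ L1
      rw [← h2, ← h3, pf, if_neg (by omega), e12, show i + 3 - 1 = i + 2 by omega]
      have : u₃ ^ 2 / q ^ 12 ≤ 1 := by
        rw [div_le_one (by positivity)]
        calc u₃ ^ 2 ≤ q := hq
          _ = q ^ 1 := (pow_one q).symm
          _ ≤ q ^ 12 := pow_le_pow_right₀ hq1 (by norm_num)
      calc L1 / u₃ ^ i * (u₃ ^ (i + 2) / q ^ 12) = L1 * (u₃ ^ 2 / q ^ 12) := by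
            rw [pow_add]; field_simp
        _ ≤ L1 * 1 := by gcongr
        _ = L1 := mul_one _
  · intro j hj
    rcases j with _ | _ | _ | _ | i
    · omega
    · omega
    · change L1 * Real.log L1 * pf u₂ u₃ u₄ 0 * u₂ ^ (2 / 3 : ℝ) ≤ L1
      rw [← h2, pf, if_pos rfl, e23]
      have : u₂ * (u₃ ^ 2 / (u₂ ^ 2 * u₄)) * q ^ 8 ≤ 1 := by
        have e1 : u₂ * (u₃ ^ 2 / (u₂ ^ 2 * u₄)) * q ^ 8 = (u₃ ^ 2 * q ^ 8) / (u₂ * u₄) := by
          field_simp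
        rw [e1, div_le_one (by positivity), e12]
        calc u₃ ^ 2 * q ^ 8 ≤ q * q ^ 8 := by gcongr
          _ = q ^ 9 := by ring
          _ ≤ q ^ 12 := pow_le_pow_right₀ hq1 (by norm_num)
          _ = q ^ 12 * 1 := (mul_one _).symm
          _ ≤ q ^ 12 * u₄ := by gcongr
      calc L1 * u₂ * (u₃ ^ 2 / (u₂ ^ 2 * u₄)) * q ^ 8 =
          L1 * (u₂ * (u₃ ^ 2 / (u₂ ^ 2 * u₄)) * q ^ 8) := by ring
        _ ≤ L1 * 1 := by gcongr
        _ = L1 := mul_one _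
    · change L1 * (Real.log L1) ^ (1 / 3 : ℝ) * pf u₂ u₃ u₄ 1 * u₂ ^ (2 / 3 : ℝ) ≤ L1
      rw [← h2, e13, e23, pf, if_neg (by norm_num), e12]
      apply le_of_eq
      simp only [Nat.sub_self, pow_zero]
      field_simp
    · change L1 / (Real.log (Real.log L1)) ^ i * pf u₂ u₃ u₄ (i + 2) * u₂ ^ (2 / 3 : ℝ) ≤ L1
      rw [← h2, ← h3, pf, if_neg (by omega), e23, e12, show i + 2 - 1 = i + 1 by omega]
      have : u₃ * q ^ 8 / q ^ 12 ≤ 1 := by
        rw [div_le_one (by positivity)]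
        calc u₃ * q ^ 8 ≤ q * q ^ 8 := by gcongr
          _ = q ^ 9 := by ring
          _ ≤ q ^ 12 := pow_le_pow_right₀ hq1 (by norm_num)
      calc L1 / u₃ ^ i * (u₃ ^ (i + 1) / q ^ 12) * q ^ 8 = L1 * (u₃ * q ^ 8 / q ^ 12) := by
            rw [pow_add]; field_simp
        _ ≤ L1 * 1 := by gcongr
        _ = L1 := mul_one _
  · intro j hj
    rcases j with _ | _ | _ | _ | i
    · omega
    · omega
    · omega
    · change L1 * (Real.log L1) ^ (1 / 3 : ℝ) * pf u₂ u₃ u₄ 0 ≤ L1 / u₂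
      rw [← h2, e13, pf, if_pos rfl]
      have : q ^ 4 * (u₃ ^ 2 / (u₂ * u₄)) ≤ 1 := by
        rw [← mul_div_assoc, div_le_one (by positivity), e12]
        calc q ^ 4 * u₃ ^ 2 ≤ q ^ 4 * q := by gcongr
          _ = q ^ 5 := by ring
          _ ≤ q ^ 12 := pow_le_pow_right₀ hq1 (by norm_num)
          _ = q ^ 12 * 1 := (mul_one _).symm
          _ ≤ q ^ 12 * u₄ := by gcongr
      calc L1 * q ^ 4 * (u₃ ^ 2 / (u₂ ^ 2 * u₄)) = L1 / u₂ * (q ^ 4 * (u₃ ^ 2 / (u₂ * u₄))) := by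
            field_simp
        _ ≤ L1 / u₂ * 1 := by gcongr
        _ = _ := mul_one _
    · change L1 / (Real.log (Real.log L1)) ^ i * pf u₂ u₃ u₄ (i + 1) ≤ L1 / u₂
      rw [← h2, ← h3, pf, if_neg (by omega), show i + 1 - 1 = i by omega]
      apply le_of_eq
      field_simp

/-- the statement on the choice of the classes -/
def PreK (k : ℕ) : Prop := ∀ ε : ℝ, 0 < ε → ∃ c : ℝ, 0 < c ∧ ∃ X₀ : ℝ, ∀ X : ℝ, X₀ ≤ X →
  ∃ b : ℕ → ℤ, ∀ j : ℕ, 1 ≤ j → j ≤ k →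
    (((Icc (-⌊c * RR X j⌋) ⌊c * RR X j⌋).filter
      (fun m : ℤ => hits (Pz ⌊Real.log X / 10⌋₊) b m + 1 ≤ j)).card : ℝ) ≤ ε * Real.log X ∧
    (((Icc (-⌊c * RR X j⌋) ⌊c * RR X j⌋).filter
      (fun m : ℤ => hits (Pz ⌊Real.log X / 10⌋₊) b m + 2 ≤ j)).card : ℝ) *
      (Real.log (Real.log X)) ^ (2 / 3 : ℝ) ≤ ε * Real.log X ∧
    ∀ m : ℤ, |m| ≤ ⌊c * RR X j⌋ → j ≤ hits (Pz ⌊Real.log X / 10⌋₊) b m + 2

theorem preK (k : ℕ) (hk : 2 ≤ k) : PreK k := by
  intro ε hε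
  obtain ⟨C, hC, X₁, hpro⟩ := profile k k hk
  obtain ⟨d₁, d₂, hd₁, hd₁₂, hVV⟩ := cz_bounds
  have hk0 : (0 : ℝ) < k := by exact_mod_cast (by omega : 0 < k)
  set c : ℝ := min 1 (min (ε / C) (1 / (40 * k * (k * C)))) with hc
  have hc0 : 0 < c := by positivity
  have hc1 : c ≤ 1 := min_le_left _ _
  have hcA : C * c ≤ ε := by
    have : c ≤ ε / C := (min_le_right _ _).trans (min_le_left _ _)
    rw [le_div_iff₀ hC] at this
    linarith
  have hcB : k * (k * (C * c)) ≤ 1 / 40 := by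
    have : c ≤ 1 / (40 * k * (k * C)) := (min_le_right _ _).trans (min_le_right _ _)
    rw [le_div_iff₀ (by positivity)] at this
    rw [le_div_iff₀ (by norm_num)]
    linarith
  obtain ⟨X₂, hsz⟩ := sizes (2000 + 2 / c) (2 * k) (by omega) d₁ d₂ hd₁ hd₁₂ hVV
  obtain ⟨X₃, hsz3⟩ := sizes 2000 (2 * k) (by omega) d₁ d₂ hd₁ hd₁₂ hVV
  refine ⟨c, hc0, max X₁ (max X₂ X₃), fun X hX => ?_⟩
  have H := hsz X (((le_max_left _ _).trans (le_max_right _ _)).trans hX)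
  have H3 := hsz3 X (((le_max_right _ _).trans (le_max_right _ _)).trans hX)
  have hpro' := hpro X ((le_max_left _ _).trans hX)
  set L1 := Real.log X with hL1
  set u₂ := Real.log L1 with hu₂
  set u₃ := Real.log u₂ with hu₃
  set u₄ := Real.log u₃ with hu₄
  have h2c : 0 < 2 / c := by positivity
  have h4 := H.hK4
  have h43 := H.h43
  have h32 := H.h32
  have hu₄1 : 1 ≤ u₄ := by linarith
  have hu₃1 : 1 ≤ u₃ := by linarith
  have hu₂1 : 1 ≤ u₂ := by linarith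
  have hu₂0 : 0 < u₂ := by linarith
  have hu₃0 : 0 < u₃ := by linarith
  have hu₄0 : 0 < u₄ := by linarith
  have hLu : (2000 + 2 / c) * u₂ ≤ L1 := by
    have := H.h2k 1 (by omega)
    rwa [pow_one] at this
  have hL0 : 0 < L1 := by
    have : 0 < (2000 + 2 / c) * u₂ := by positivity
    linarith
  have hq : u₃ ^ 2 ≤ u₂ ^ (1 / 12 : ℝ) := by
    have q1 := H.h3k 2 (by omega)
    have q3 : 1 * u₃ ^ 2 ≤ (2000 + 2 / c) * u₃ ^ 2 := by gcongr; linarith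
    linarith
  obtain ⟨rA, rB, rT⟩ := rad_num X u₂ u₃ u₄ rfl rfl rfl hL0 hu₂1 hu₃1 hu₄1 hq
  -- bounds for the radii
  have hqu : u₂ ^ (1 / 12 : ℝ) ≤ u₂ := by
    calc u₂ ^ (1 / 12 : ℝ) ≤ u₂ ^ (1 : ℝ) := Real.rpow_le_rpow_of_exponent_le hu₂1 (by norm_num)
      _ = u₂ := Real.rpow_one _
  have h13 : 1 ≤ u₂ ^ (1 / 3 : ℝ) := Real.one_le_rpow hu₂1 (by norm_num)
  have h13' : u₂ ^ (1 / 3 : ℝ) ≤ u₂ := by
    calc u₂ ^ (1 / 3 : ℝ) ≤ u₂ ^ (1 : ℝ) := Real.rpow_le_rpow_of_exponent_le hu₂1 (by norm_num)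
      _ = u₂ := Real.rpow_one _
  have hsq : u₂ ≤ u₂ ^ 2 := le_self_pow₀ hu₂1 (by norm_num)
  have h32sq : u₃ ^ 2 ≤ u₂ := hq.trans hqu
  have hF : ff X = L1 * u₂ ^ 2 * u₄ / u₃ ^ 2 := rfl
  have hFlow : L1 ≤ ff X := by
    rw [hF, le_div_iff₀ (by positivity)]
    calc L1 * u₃ ^ 2 ≤ L1 * u₂ := by gcongr
      _ ≤ L1 * u₂ ^ 2 := by gcongr
      _ = L1 * u₂ ^ 2 * 1 := (mul_one _).symm
      _ ≤ L1 * u₂ ^ 2 * u₄ := by gcongr
  have hFup : ff X ≤ L1 * u₂ ^ 2 := by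
    rw [hF, div_le_iff₀ (by positivity)]
    have : u₄ ≤ u₃ ^ 2 := by
      have : u₃ ≤ u₃ ^ 2 := le_self_pow₀ hu₃1 (by norm_num)
      linarith
    gcongr
  have hRlow : ∀ j, j ≤ k → L1 / u₃ ^ k ≤ RR X j := by
    intro j hj
    have h0 : L1 / u₃ ^ k ≤ L1 := div_le_self hL0.le (one_le_pow₀ hu₃1)
    rcases j with _ | _ | _ | _ | i
    · exact h0.trans hFlow
    · exact h0.trans hFlow
    · refine h0.trans ?_
      change L1 ≤ L1 * u₂
      exact le_mul_of_one_le_right hL0.le hu₂1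
    · refine h0.trans ?_
      change L1 ≤ L1 * u₂ ^ (1 / 3 : ℝ)
      exact le_mul_of_one_le_right hL0.le h13
    · change L1 / u₃ ^ k ≤ L1 / u₃ ^ i
      apply div_le_div_of_nonneg_left hL0.le (by positivity)
      exact pow_le_pow_right₀ hu₃1 (by omega)
  have hRup : ∀ j, RR X j ≤ L1 * u₂ ^ 2 := by
    intro j
    have h1 : L1 ≤ L1 * u₂ ^ 2 := le_mul_of_one_le_right hL0.le (by linarith)
    rcases j with _ | _ | _ | _ | i
    · exact hFup
    · exact hFup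
    · change L1 * u₂ ≤ _
      gcongr
    · change L1 * u₂ ^ (1 / 3 : ℝ) ≤ _
      gcongr
      linarith
    · change L1 / u₃ ^ i ≤ _
      exact (div_le_self hL0.le (one_le_pow₀ hu₃1)).trans h1
  have hR0 : ∀ j, 0 ≤ RR X j := by
    intro j
    rcases j with _ | _ | _ | _ | i
    · exact hL0.le.trans hFlow
    · exact hL0.le.trans hFlow
    · change 0 ≤ L1 * u₂
      positivity
    · change 0 ≤ L1 * u₂ ^ (1 / 3 : ℝ)
      positivity
    · change 0 ≤ L1 / u₃ ^ i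
      positivity
  set NN : ℕ → ℕ := fun j => ⌊c * RR X j⌋₊ with hNN
  have hNfl : ∀ j, ⌊c * RR X j⌋ = (NN j : ℤ) := fun j =>
    (Int.natCast_floor_eq_floor (mul_nonneg hc0.le (hR0 j))).symm
  have hNle : ∀ j, (NN j : ℝ) ≤ c * RR X j := fun j => Nat.floor_le (mul_nonneg hc0.le (hR0 j))
  set 𝒩 : Finset ℕ := (Icc 1 k).image NN with h𝒩
  have h𝒩c : 𝒩.card ≤ k := by
    refine card_image_le.trans ?_
    simp
  have hyone : 1 ≤ L1 / u₂ := by
    rw [le_div_iff₀ hu₂0]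
    have : 1 * u₂ ≤ (2000 + 2 / c) * u₂ := by gcongr; linarith
    linarith
  have hmem : ∀ N ∈ 𝒩, L1 / u₂ ≤ N ∧ (N : ℝ) ≤ L1 * u₂ ^ 2 := by
    intro N hN
    rw [h𝒩, mem_image] at hN
    obtain ⟨j, hj, rfl⟩ := hN
    rw [mem_Icc] at hj
    constructor
    · have h1 : c * RR X j < NN j + 1 := Nat.lt_floor_add_one _
      have h2 : 2 * (L1 / u₂) ≤ c * RR X j := by
        have h3 : 2 / c * u₃ ^ k ≤ u₂ := by
          have q1 := H.h3k k (by omega)
          have q3 : 2 / c * u₃ ^ k ≤ (2000 + 2 / c) * u₃ ^ k := by gcongr; linarith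
          linarith
        calc 2 * (L1 / u₂) ≤ c * (L1 / u₃ ^ k) := by
              rw [← mul_div_assoc, ← mul_div_assoc, div_le_div_iff₀ hu₂0 (by positivity)]
              have h4 : 2 * u₃ ^ k ≤ c * u₂ := by
                have h5 : c * (2 / c * u₃ ^ k) ≤ c * u₂ := by gcongr
                have h6 : c * (2 / c * u₃ ^ k) = 2 * u₃ ^ k := by field_simp
                linarith
              calc 2 * L1 * u₃ ^ k = L1 * (2 * u₃ ^ k) := by ring
                _ ≤ L1 * (c * u₂) := by gcongr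
                _ = _ := by ring
          _ ≤ c * RR X j := by
            have := hRlow j hj.2
            gcongr
      linarith
    · refine (hNle j).trans ?_
      calc c * RR X j ≤ 1 * RR X j := by
            have := hR0 j
            gcongr
        _ = RR X j := one_mul _
        _ ≤ _ := hRup j
  obtain ⟨b, hb⟩ := hpro' 𝒩 h𝒩c hmem
  set Y := ⌊L1 / u₂⌋₊ with hY
  set Z := ⌊L1 / 10⌋₊ with hZ
  -- the profile at the radii
  have hprof : ∀ j, 1 ≤ j → j ≤ k → ∀ h, h ≤ k →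
      (((Icc (-(NN j : ℤ)) (NN j : ℤ)).filter (fun m => hits (Pz Y) b m ≤ h)).card : ℝ) ≤
      C * c * (RR X j * pf u₂ u₃ u₄ h) := by
    intro j hj1 hjk h hhk
    have h1 := hb (NN j) (by rw [h𝒩, mem_image]; exact ⟨j, mem_Icc.2 ⟨hj1, hjk⟩, rfl⟩)
    have hpf0 : 0 ≤ pf u₂ u₃ u₄ h := by
      unfold pf
      split_ifs <;> positivity
    have h2 : (((Icc (-(NN j : ℤ)) (NN j : ℤ)).filter (fun m => hits (Pz Y) b m ≤ h)).card : ℝ) ≤
        C * (NN j : ℝ) * pf u₂ u₃ u₄ h := by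
      rcases Nat.eq_zero_or_pos h with rfl | hh
      · rw [pf, if_pos rfl]
        exact h1.1
      · rw [pf, if_neg (by omega)]
        exact h1.2 h hh hhk
    refine h2.trans ?_
    calc C * (NN j : ℝ) * pf u₂ u₃ u₄ h ≤ C * (c * RR X j) * pf u₂ u₃ u₄ h := by
          have := hNle j
          gcongr
      _ = _ := by ring
  -- the designated points
  set T : Finset ℤ := (Icc 3 k).biUnion (fun j =>
    (Icc (-(NN j : ℤ)) (NN j : ℤ)).filter (fun m => hits (Pz Y) b m ≤ j - 3)) with hT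
  have hTc : (T.card : ℝ) ≤ k * (C * c) * (L1 / u₂) := by
    have h1 : (T.card : ℝ) ≤ ∑ j ∈ Icc 3 k, (((Icc (-(NN j : ℤ)) (NN j : ℤ)).filter
        (fun m => hits (Pz Y) b m ≤ j - 3)).card : ℝ) := by
      exact_mod_cast card_biUnion_le
    refine h1.trans ?_
    have h2 : ∀ j ∈ Icc 3 k, (((Icc (-(NN j : ℤ)) (NN j : ℤ)).filter
        (fun m => hits (Pz Y) b m ≤ j - 3)).card : ℝ) ≤ C * c * (L1 / u₂) := by
      intro j hj
      rw [mem_Icc] at hj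
      refine (hprof j (by omega) hj.2 (j - 3) (by omega)).trans ?_
      have := rT j hj.1
      gcongr
    refine (sum_le_sum h2).trans ?_
    rw [sum_const, nsmul_eq_mul, Nat.card_Icc]
    have h3 : ((k + 1 - 3 : ℕ) : ℝ) ≤ k := by exact_mod_cast (by omega : k + 1 - 3 ≤ k)
    calc ((k + 1 - 3 : ℕ) : ℝ) * (C * c * (L1 / u₂)) ≤ k * (C * c * (L1 / u₂)) := by gcongr
      _ = _ := by ring
  have hmany := primes_many d₁ d₂ X u₂ u₃ u₄ (L1 / u₂) (WW (L1 / u₂)) (2 * k)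
    ⌊Real.exp (WW (L1 / u₂))⌋₊ Y (by omega) H3 rfl
  have hTP : T.card * k ≤ ((Ioc Y Z).filter Nat.Prime).card := by
    have h1 : ((T.card * k : ℕ) : ℝ) ≤ ((Ioc Y Z).filter Nat.Prime).card := by
      push_cast
      calc (T.card : ℝ) * k ≤ (k * (C * c) * (L1 / u₂)) * k := by gcongr
        _ = k * (k * (C * c)) * (L1 / u₂) := by ring
        _ ≤ 1 / 40 * (L1 / u₂) := by gcongr
        _ = L1 / u₂ / 40 := by ring
        _ ≤ _ := hmany
    exact_mod_cast h1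
  have hYZ : Y ≤ Z := by
    apply Nat.floor_le_floor
    apply div_le_div_of_nonneg_left hL0.le (by norm_num) (by linarith)
  obtain ⟨b', hb1, hb2⟩ := designate Y Z k hYZ b T hTP
  refine ⟨b', fun j hj1 hjk => ?_⟩
  rw [hNfl j]
  refine ⟨?_, ?_, ?_⟩
  · have h1 : (Icc (-(NN j : ℤ)) (NN j : ℤ)).filter (fun m => hits (Pz Z) b' m + 1 ≤ j) ⊆
        (Icc (-(NN j : ℤ)) (NN j : ℤ)).filter (fun m => hits (Pz Y) b m ≤ j - 1) := by
      intro m hm
      rw [mem_filter] at hm ⊢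
      have := hb1 m
      exact ⟨hm.1, by omega⟩
    have h2 : (((Icc (-(NN j : ℤ)) (NN j : ℤ)).filter
        (fun m => hits (Pz Z) b' m + 1 ≤ j)).card : ℝ) ≤ C * c * L1 := by
      refine le_trans (by exact_mod_cast card_le_card h1)
        ((hprof j hj1 hjk (j - 1) (by omega)).trans ?_)
      have := rA j hj1
      gcongr
    refine h2.trans ?_
    gcongr
  · rcases Nat.eq_or_lt_of_le hj1 with rfl | hj2
    · have h0 : (Icc (-(NN 1 : ℤ)) (NN 1 : ℤ)).filter (fun m => hits (Pz Z) b' m + 2 ≤ 1) = ∅ := by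
        rw [filter_eq_empty_iff]
        intro m _
        omega
      rw [h0]
      simp only [card_empty, Nat.cast_zero, zero_mul]
      positivity
    · have h1 : (Icc (-(NN j : ℤ)) (NN j : ℤ)).filter (fun m => hits (Pz Z) b' m + 2 ≤ j) ⊆
          (Icc (-(NN j : ℤ)) (NN j : ℤ)).filter (fun m => hits (Pz Y) b m ≤ j - 2) := by
        intro m hm
        rw [mem_filter] at hm ⊢
        have := hb1 m
        exact ⟨hm.1, by omega⟩
      have h2 : (((Icc (-(NN j : ℤ)) (NN j : ℤ)).filter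
          (fun m => hits (Pz Z) b' m + 2 ≤ j)).card : ℝ) ≤
          C * c * (RR X j * pf u₂ u₃ u₄ (j - 2)) :=
        le_trans (by exact_mod_cast card_le_card h1) (hprof j hj1 hjk (j - 2) (by omega))
      have h3 := rB j hj2
      have h5 : 0 ≤ u₂ ^ (2 / 3 : ℝ) := by positivity
      calc _ ≤ C * c * (RR X j * pf u₂ u₃ u₄ (j - 2)) * u₂ ^ (2 / 3 : ℝ) := by gcongr
        _ = C * c * (RR X j * pf u₂ u₃ u₄ (j - 2) * u₂ ^ (2 / 3 : ℝ)) := by ring
        _ ≤ C * c * L1 := by gcongr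
        _ ≤ ε * L1 := by gcongr
  · intro m hm
    by_cases hj3 : j ≤ 2
    · omega
    · by_cases hmT : m ∈ T
      · have := hb2 m hmT
        omega
      · have h1 : ¬ hits (Pz Y) b m ≤ j - 3 := by
          intro hcon
          apply hmT
          rw [hT, mem_biUnion]
          refine ⟨j, mem_Icc.2 ⟨by omega, hjk⟩, ?_⟩
          rw [mem_filter, mem_Icc]
          rw [abs_le] at hm
          exact ⟨hm, hcon⟩
        have := hb1 m
        omega

end Pool.Agent.H80.Pk
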